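import Pool.Agent.Helper57_C2.Stmts

/-!
# Rows CNM, CNS of part C2
-/

open Finset

namespace Pool.Agent.PP.C2.H21

open Pool.Agent.PP.C2

theorem quad (E : ℕ) (x : Fin E → ℤ) (i₀ : Fin E) (h : x i₀ ≠ 0) :
    2 * (E : ℤ) ≤ 2 * ∑ i, x i ^ 2 + ∑ i, ∑ i', (x i - x i') ^ 2 := by
  have h1 : ∀ i, (1 : ℤ) ≤ x i ^ 2 + (x i - x i₀) ^ 2 := by
    intro i
    by_cases hi : x i = 0
    · rw [hi]
      have : 0 < x i₀ ^ 2 := by positivity
      nlinarith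
    · have : 0 < x i ^ 2 := by positivity
      nlinarith [sq_nonneg (x i - x i₀)]
  have h2 : (E : ℤ) ≤ ∑ i, x i ^ 2 + ∑ i, (x i - x i₀) ^ 2 := by
    rw [← Finset.sum_add_distrib]
    calc (E : ℤ) = ∑ _i : Fin E, (1 : ℤ) := by simp
      _ ≤ _ := Finset.sum_le_sum fun i _ => h1 i
  have h3 : 2 * ∑ i, (x i - x i₀) ^ 2 ≤ ∑ i, ∑ i', (x i - x i') ^ 2 := by
    rw [← Finset.add_sum_erase Finset.univ (fun i => ∑ i', (x i - x i') ^ 2) (Finset.mem_univ i₀)]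
    have h4 : ∑ i', (x i₀ - x i') ^ 2 = ∑ i, (x i - x i₀) ^ 2 :=
      Finset.sum_congr rfl fun i _ => by ring
    have h5 : ∑ i, (x i - x i₀) ^ 2 = ∑ i ∈ Finset.univ.erase i₀, (x i - x i₀) ^ 2 := by
      rw [← Finset.add_sum_erase Finset.univ (fun i => (x i - x i₀) ^ 2) (Finset.mem_univ i₀)]
      ring
    have h6 : ∑ i ∈ Finset.univ.erase i₀, (x i - x i₀) ^ 2 ≤
        ∑ i ∈ Finset.univ.erase i₀, ∑ i', (x i - x i') ^ 2 :=
      Finset.sum_le_sum fun i _ =>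
        Finset.single_le_sum (f := fun i' => (x i - x i') ^ 2) (fun i' _ => sq_nonneg _)
          (Finset.mem_univ i₀)
    rw [h4]
    linarith
  linarith

theorem cnm : CnmStmt := by
  classical
  intro ℓ E b hℓ hb
  obtain ⟨i₀, s₀, hs₀, s₁, hs₁, hne⟩ := hb
  let g : ℕ → ℕ → ℤ := fun s s' => 2 * ∑ i, (b i s - b i s') ^ 2 +
      ∑ i, ∑ i', ((b i s - b i' s) - (b i s' - b i' s')) ^ 2
  have hg0 : ∀ s s', 0 ≤ g s s' := by
    intro s s'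
    have h1 : 0 ≤ ∑ i, (b i s - b i s') ^ 2 := Finset.sum_nonneg fun i _ => sq_nonneg _
    have h2 : 0 ≤ ∑ i, ∑ i', ((b i s - b i' s) - (b i s' - b i' s')) ^ 2 :=
      Finset.sum_nonneg fun i _ => Finset.sum_nonneg fun i' _ => sq_nonneg _
    show 0 ≤ 2 * ∑ i, (b i s - b i s') ^ 2 +
      ∑ i, ∑ i', ((b i s - b i' s) - (b i s' - b i' s')) ^ 2
    linarith
  have hg : ∀ s s', (∃ i, b i s ≠ b i s') → 2 * (E : ℤ) ≤ g s s' := by
    rintro s s' ⟨i, hi⟩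
    have h1 := quad E (fun i => b i s - b i s') i (sub_ne_zero.2 hi)
    have h2 : ∑ i, ∑ i', ((b i s - b i' s) - (b i s' - b i' s')) ^ 2 =
        ∑ i, ∑ i', ((b i s - b i s') - (b i' s - b i' s')) ^ 2 :=
      Finset.sum_congr rfl fun i _ => Finset.sum_congr rfl fun i' _ => by ring
    show 2 * (E : ℤ) ≤ 2 * ∑ i, (b i s - b i s') ^ 2 +
      ∑ i, ∑ i', ((b i s - b i' s) - (b i s' - b i' s')) ^ 2
    rw [h2]
    exact h1
  let A : Finset ℕ := (Finset.range ℓ).filter fun s => ∀ i, b i s = b i s₀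
  let B : Finset ℕ := (Finset.range ℓ).filter fun s => ¬ ∀ i, b i s = b i s₀
  have hcard : A.card + B.card = ℓ := by
    have := Finset.card_filter_add_card_filter_not (s := Finset.range ℓ)
      (fun s => ∀ i, b i s = b i s₀)
    rw [Finset.card_range] at this
    exact this
  have hA : 1 ≤ A.card := Finset.card_pos.2 ⟨s₀, Finset.mem_filter.2 ⟨Finset.mem_range.2 hs₀,
    fun i => rfl⟩⟩
  have hB : 1 ≤ B.card := Finset.card_pos.2 ⟨s₁, Finset.mem_filter.2 ⟨Finset.mem_range.2 hs₁,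
    fun h => hne (h i₀).symm⟩⟩
  have hAB : ∀ s ∈ A, ∀ s' ∈ B, 2 * (E : ℤ) ≤ g s s' ∧ 2 * (E : ℤ) ≤ g s' s := by
    intro s hs s' hs'
    have h1 := (Finset.mem_filter.1 hs).2
    have h2 := (Finset.mem_filter.1 hs').2
    push Not at h2
    obtain ⟨i, hi⟩ := h2
    refine ⟨hg s s' ⟨i, fun h => hi ?_⟩, hg s' s ⟨i, fun h => hi ?_⟩⟩
    · rw [← h, h1 i]
    · rw [h, h1 i]
  have hsplit : ∀ F : ℕ → ℤ, ∑ s ∈ Finset.range ℓ, F s = ∑ s ∈ A, F s + ∑ s ∈ B, F s := fun F =>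
    (Finset.sum_filter_add_sum_filter_not (Finset.range ℓ) (fun s => ∀ i, b i s = b i s₀) F).symm
  have h1 : (A.card : ℤ) * (B.card * (2 * E)) ≤ ∑ s ∈ A, ∑ s' ∈ Finset.range ℓ, g s s' := by
    have : ∀ s ∈ A, (B.card : ℤ) * (2 * E) ≤ ∑ s' ∈ Finset.range ℓ, g s s' := by
      intro s hs
      rw [hsplit]
      have h2 : (B.card : ℤ) * (2 * E) ≤ ∑ s' ∈ B, g s s' := by
        rw [← nsmul_eq_mul]
        exact Finset.card_nsmul_le_sum _ _ _ fun s' hs' => (hAB s hs s' hs').1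
      have h3 : 0 ≤ ∑ s' ∈ A, g s s' := Finset.sum_nonneg fun s' _ => hg0 s s'
      linarith
    rw [← nsmul_eq_mul]
    exact Finset.card_nsmul_le_sum _ _ _ this
  have h2 : (B.card : ℤ) * (A.card * (2 * E)) ≤ ∑ s ∈ B, ∑ s' ∈ Finset.range ℓ, g s s' := by
    have : ∀ s ∈ B, (A.card : ℤ) * (2 * E) ≤ ∑ s' ∈ Finset.range ℓ, g s s' := by
      intro s hs
      rw [hsplit]
      have h2 : (A.card : ℤ) * (2 * E) ≤ ∑ s' ∈ A, g s s' := by
        rw [← nsmul_eq_mul]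
        exact Finset.card_nsmul_le_sum _ _ _ fun s' hs' => (hAB s' hs' s hs).2
      have h3 : 0 ≤ ∑ s' ∈ B, g s s' := Finset.sum_nonneg fun s' _ => hg0 s s'
      linarith
    rw [← nsmul_eq_mul]
    exact Finset.card_nsmul_le_sum _ _ _ this
  have h3 : (ℓ : ℤ) - 1 ≤ (A.card : ℤ) * B.card := by
    have h4 : (ℓ : ℤ) = A.card + B.card := by exact_mod_cast hcard.symm
    have h5 : (1 : ℤ) ≤ A.card := by exact_mod_cast hA
    have h6 : (1 : ℤ) ≤ B.card := by exact_mod_cast hB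
    rw [h4]
    nlinarith
  have hE : (0 : ℤ) ≤ E := by positivity
  show 4 * ((ℓ : ℤ) - 1) * E ≤ ∑ s ∈ Finset.range ℓ, ∑ s' ∈ Finset.range ℓ, g s s'
  rw [hsplit (fun s => ∑ s' ∈ Finset.range ℓ, g s s')]
  nlinarith [mul_le_mul_of_nonneg_right h3 hE]

theorem inv_sum (q : ℕ) (ζ : ℂ) (hζ : IsPrimitiveRoot ζ q) (f : ℕ → ℂ) (k : ℕ) (hk : k < q) :
    ∑ j ∈ Finset.range q, (∑ s ∈ Finset.range q, f s * ζ ^ (s * j)) * ζ⁻¹ ^ (k * j) = q * f k := by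
  have hz : ζ ≠ 0 := hζ.ne_zero (by omega)
  have h1 : ∑ j ∈ Finset.range q, (∑ s ∈ Finset.range q, f s * ζ ^ (s * j)) * ζ⁻¹ ^ (k * j) =
      ∑ s ∈ Finset.range q, f s * ∑ j ∈ Finset.range q, (ζ ^ s * ζ⁻¹ ^ k) ^ j := by
    simp only [Finset.sum_mul, Finset.mul_sum]
    rw [Finset.sum_comm]
    refine Finset.sum_congr rfl fun s _ => Finset.sum_congr rfl fun j _ => ?_
    rw [mul_pow, ← pow_mul, ← pow_mul, mul_assoc]
  rw [h1, Finset.sum_eq_single k]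
  · have h2 : ζ ^ k * ζ⁻¹ ^ k = 1 := by
      rw [← mul_pow, mul_inv_cancel₀ hz, one_pow]
    rw [h2]
    simp
    ring
  · intro s hs hsk
    have hs' := Finset.mem_range.1 hs
    have h3 : ζ ^ s * ζ⁻¹ ^ k ≠ 1 := by
      intro h
      apply hsk
      apply hζ.pow_inj hs' hk
      have h4 : ζ ^ s * ζ⁻¹ ^ k * ζ ^ k = ζ ^ k := by rw [h, one_mul]
      rw [mul_assoc, ← mul_pow, inv_mul_cancel₀ hz, one_pow, mul_one] at h4
      exact h4
    have h5 : (ζ ^ s * ζ⁻¹ ^ k) ^ q = 1 := by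
      rw [mul_pow, ← pow_mul, ← pow_mul, mul_comm s, mul_comm k, pow_mul, pow_mul, hζ.pow_eq_one,
        inv_pow, hζ.pow_eq_one]
      simp
    have h6 : ∑ j ∈ Finset.range q, (ζ ^ s * ζ⁻¹ ^ k) ^ j = 0 := by
      rw [geom_sum_eq h3, h5, sub_self, zero_div]
    rw [h6, mul_zero]
  · intro h
    exact absurd (Finset.mem_range.2 hk) h

theorem cns : CnsStmt := by
  intro ℓ hℓ n hn ζ hζ f hf k hk s hs s' hs'
  have hp := hℓ.out
  have hq : ℓ ^ (n - 1) * ℓ = ℓ ^ n := by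
    rw [← pow_succ, Nat.sub_add_cancel hn]
  have hlt : ∀ s < ℓ, k + ℓ ^ (n - 1) * s < ℓ ^ n := by
    intro s hs
    calc k + ℓ ^ (n - 1) * s < ℓ ^ (n - 1) + ℓ ^ (n - 1) * s := by omega
      _ = ℓ ^ (n - 1) * (s + 1) := by ring
      _ ≤ ℓ ^ (n - 1) * ℓ := Nat.mul_le_mul_left _ hs
      _ = ℓ ^ n := hq
  have hq0 : ((ℓ ^ n : ℕ) : ℂ) ≠ 0 := by
    exact_mod_cast (pow_pos hp.pos n).ne'
  have main : ∀ s < ℓ, ((ℓ ^ n : ℕ) : ℂ) * f (k + ℓ ^ (n - 1) * s) =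
      ∑ j ∈ Finset.range (ℓ ^ n), (∑ r ∈ Finset.range (ℓ ^ n), f r * ζ ^ (r * j)) *
        ζ⁻¹ ^ (k * j) := by
    intro s hs
    rw [← inv_sum (ℓ ^ n) ζ hζ f _ (hlt s hs)]
    refine Finset.sum_congr rfl fun j _ => ?_
    by_cases hj : j.Coprime ℓ
    · rw [hf j hj, zero_mul, zero_mul]
    · have hd : ℓ ∣ j := by
        by_contra h
        exact hj ((Nat.Prime.coprime_iff_not_dvd hp).2 h).symm
      obtain ⟨c, rfl⟩ := hd
      have h1 : (k + ℓ ^ (n - 1) * s) * (ℓ * c) = k * (ℓ * c) + ℓ ^ n * (s * c) := by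
        rw [← hq]; ring
      have h2 : ζ⁻¹ ^ ℓ ^ n = 1 := by rw [inv_pow, hζ.pow_eq_one, inv_one]
      rw [h1, pow_add, pow_mul _ (ℓ ^ n), h2, one_pow, mul_one]
  have h1 := (main s hs).trans (main s' hs').symm
  exact mul_left_cancel₀ hq0 h1

end Pool.Agent.PP.C2.H21
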